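import Pool.Agent.helper58.FI.SpecC

set_option autoImplicit false

namespace Pool.Agent.FI

open Pool.Agent.helper58.DC Pool.Agent.DI Pool.Agent.GR Pool.Agent.OB Pool.Agent.DR

theorem FBC (hFSI : FSI_stmt) : FBC_stmt := by
  intro p M hM G _ _ L θ y
  have hle : Cz L y ≤ L := inf_le_left
  refine ⟨⟨fun ψ h => h.1, fun ψ h ψ' h' hc => ⟨h', ?_⟩⟩, ⟨fun ψ h => h.1, fun ψ h ψ' h' hc => ⟨h', ?_⟩⟩,
    ⟨fun ψ h => h.1, fun ψ h ψ' h' hc => ⟨h', ?_⟩⟩, fun ψ h hθ => ⟨h.1, ?_⟩⟩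
  · have h1 : SB M L ψ ψ' := hc
    exact h1.symm.trans h.2
  · have h1 : SB M (Cz L y) ψ ψ' := hc
    have h2 : SB M L ψ ψ' := (hFSI p M hM G (Cz L y) L ψ ψ').1 hle h.1.1 h'.1 h1
    exact h2.symm.trans h.2
  · have h1 : SB M (Cz L y) ψ ψ' := hc
    exact h1.symm.trans h.2
  · exact (hFSI p M hM G (Cz L y) L ψ θ).1 hle h.1.1 hθ h.2

end Pool.Agent.FI
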